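import Mathlib

namespace Pool.Agent.Results.MP_17cdb9_nt.Counter

open Finset

/-- The generalized binomial coefficient `a (a-1) ... (a-k+1) / k!`. -/
def binom (a : ℚ) (k : ℕ) : ℚ := (∏ i ∈ range k, (a - (i : ℚ))) / (k.factorial : ℚ)

/-- The sum `S(p)`. -/
def S (p : ℕ) : ℚ := ∑ k ∈ range p, (-1 : ℚ) ^ k * binom (-1 / 4) k ^ 2

/-- `u ≡ v (mod p^m)`: the rational `(u - v) / p^m` has denominator prime to `p`. -/
def Cong (p m : ℕ) (u v : ℚ) : Prop := Nat.Coprime ((u - v) / (p : ℚ) ^ m).den p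

instance (p m : ℕ) (u v : ℚ) : Decidable (Cong p m u v) := by unfold Cong; infer_instance

theorem result : ∃ p : ℕ, p.Prime ∧ p % 8 = 1 ∧ (∃ x y : ℤ, (p : ℤ) = x ^ 2 + 2 * y ^ 2) ∧
    ∀ x y : ℤ, (p : ℤ) = x ^ 2 + 2 * y ^ 2 →
      ¬ Cong p 2 (S p) ((-1 : ℚ) ^ ((x + 1) / 2) * (2 * (x : ℚ) - (p : ℚ) / (2 * (x : ℚ)))) := by
  refine ⟨41, by norm_num, by norm_num, ⟨3, 4, by norm_num⟩, fun x y h => ?_⟩
  have hx : x = 3 ∨ x = -3 := by
    push_cast at h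
    have h1 : x ≤ 6 := by nlinarith [sq_nonneg y, sq_nonneg (x - 7)]
    have h2 : -6 ≤ x := by nlinarith [sq_nonneg y, sq_nonneg (x + 7)]
    have h3 : y ≤ 4 := by nlinarith [sq_nonneg x, sq_nonneg (y - 5)]
    have h4 : -4 ≤ y := by nlinarith [sq_nonneg x, sq_nonneg (y + 5)]
    interval_cases x <;> interval_cases y <;> simp_all
  rcases hx with rfl | rfl
  · decide +kernel
  · decide +kernel

end Pool.Agent.Results.MP_17cdb9_nt.Counter
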